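import Pool.Agent.W670.ML.Defs2

/-! Project ML2 (helper670), part IQ: index and fibres. -/

set_option autoImplicit false

namespace Pool.Agent.W240.ML2

open Finset Equiv.Perm Pool.Agent.W670.ML

/-- the contribution of a point to the index -/
noncomputable def wt {k : ℕ} (σ : Equiv.Perm (Fin k)) (a : Fin k) : ℚ :=
  1 - 1 / (orderOf (σ.cycleOf a) : ℚ)

theorem ind_eq {k : ℕ} (σ : Equiv.Perm (Fin k)) : (ind σ : ℚ) = ∑ a, wt σ a := by
  classical
  have h1 : (ind σ : ℚ) = ∑ c ∈ σ.cycleFactorsFinset, ((c.support.card : ℚ) - 1) := by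
    have e1 : σ.cycleType.sum = ∑ c ∈ σ.cycleFactorsFinset, c.support.card := by
      rw [Equiv.Perm.cycleType_def]; rfl
    have e2 : Multiset.card σ.cycleType = σ.cycleFactorsFinset.card := by
      rw [Equiv.Perm.cycleType_def, Multiset.card_map]; rfl
    have e3 : σ.cycleFactorsFinset.card ≤ ∑ c ∈ σ.cycleFactorsFinset, c.support.card := by
      rw [card_eq_sum_ones]
      refine sum_le_sum fun c hc => ?_
      have := (Equiv.Perm.mem_cycleFactorsFinset_iff.1 hc).1.two_le_card_support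
      omega
    unfold ind
    rw [e1, e2, Nat.cast_sub e3, sum_sub_distrib]
    push_cast
    simp
  have h2 : ∑ a, wt σ a = ∑ a ∈ σ.support, wt σ a := by
    symm
    refine sum_subset (subset_univ _) fun a _ ha => ?_
    rw [Equiv.Perm.notMem_support] at ha
    have : σ.cycleOf a = 1 := Equiv.Perm.cycleOf_eq_one_iff σ |>.2 ha
    unfold wt
    rw [this, orderOf_one]
    norm_num
  rw [h1, h2, ← sum_fiberwise_of_maps_to (s := σ.support) (t := σ.cycleFactorsFinset)
    (g := fun a => σ.cycleOf a)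
    (fun a ha => Equiv.Perm.cycleOf_mem_cycleFactorsFinset_iff.2 ha)]
  refine sum_congr rfl fun c hc => ?_
  have hcyc := (Equiv.Perm.mem_cycleFactorsFinset_iff.1 hc).1
  have h3 : (σ.support.filter fun a => σ.cycleOf a = c) = c.support := by
    ext a
    rw [mem_filter]
    constructor
    · rintro ⟨ha, rfl⟩
      rw [Equiv.Perm.mem_support_cycleOf_iff]
      exact ⟨Equiv.Perm.SameCycle.refl _ _, ha⟩
    · intro ha
      exact ⟨Equiv.Perm.mem_cycleFactorsFinset_support_le hc ha,
        (Equiv.Perm.cycle_is_cycleOf ha hc).symm⟩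
  have h4 : ∀ a ∈ σ.support.filter (fun a => σ.cycleOf a = c),
      wt σ a = 1 - 1 / (c.support.card : ℚ) := by
    intro a ha
    rw [mem_filter] at ha
    unfold wt
    rw [ha.2, hcyc.orderOf]
  rw [sum_congr rfl h4, sum_const, h3, nsmul_eq_mul]
  have h5 : (c.support.card : ℚ) ≠ 0 := by
    have := hcyc.two_le_card_support
    have h6 : c.support.card ≠ 0 := by omega
    exact_mod_cast h6
  field_simp

theorem wt_le {k n : ℕ} (p : Fin k → Fin n) (τ : Equiv.Perm (Fin k)) (g : Equiv.Perm (Fin n))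
    (h : ∀ a, p (τ a) = g (p a)) (a : Fin k) : wt g (p a) ≤ wt τ a := by
  have hpow : ∀ (m : ℕ) (a : Fin k), p ((τ ^ m) a) = (g ^ m) (p a) := by
    intro m
    induction m with
    | zero => intro a; simp
    | succ m ih => intro a; rw [pow_succ, pow_succ, Equiv.Perm.mul_apply, Equiv.Perm.mul_apply, ih, h]
  have hle : orderOf (g.cycleOf (p a)) ≤ orderOf (τ.cycleOf a) := by
    refine Nat.le_of_dvd (orderOf_pos _) (orderOf_dvd_of_pow_eq_one ?_)
    obtain ⟨m, hm⟩ : ∃ m, m = orderOf (τ.cycleOf a) := ⟨_, rfl⟩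
    rw [← hm]
    have h1 : (τ ^ m) a = a := by
      rw [← Equiv.Perm.cycleOf_pow_apply_self, hm, pow_orderOf_eq_one]; rfl
    have h2 : (g ^ m) (p a) = p a := by rw [← hpow, h1]
    by_cases hg : g (p a) = p a
    · rw [(Equiv.Perm.cycleOf_eq_one_iff g).2 hg, one_pow]
    · have hc : (g.cycleOf (p a)).IsCycle := Equiv.Perm.isCycle_cycleOf g hg
      rw [hc.pow_eq_one_iff]
      refine ⟨p a, ?_, ?_⟩
      · rwa [Equiv.Perm.cycleOf_apply_self]
      · rw [Equiv.Perm.cycleOf_pow_apply_self, h2]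
  unfold wt
  have h3 : (0 : ℚ) < orderOf (g.cycleOf (p a)) := by exact_mod_cast orderOf_pos _
  have h4 : (orderOf (g.cycleOf (p a)) : ℚ) ≤ orderOf (τ.cycleOf a) := by exact_mod_cast hle
  have h5 := one_div_le_one_div_of_le h3 h4
  linarith

theorem iq : S_IQ := by
  classical
  intro k n f p hp τ g h
  have h1 : ((f * ind g : ℕ) : ℚ) ≤ (ind τ : ℕ) := by
    rw [Nat.cast_mul, ind_eq, ind_eq, mul_sum]
    have h2 : ∑ b, (f : ℚ) * wt g b = ∑ a, wt g (p a) := by
      rw [← sum_fiberwise_of_maps_to (s := univ) (t := univ) (g := p) (fun a _ => mem_univ _)]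
      refine sum_congr rfl fun b _ => ?_
      have h3 : ∀ a ∈ univ.filter (fun a => p a = b), wt g (p a) = wt g b := by
        intro a ha
        rw [(mem_filter.1 ha).2]
      rw [sum_congr rfl h3, sum_const, hp b, nsmul_eq_mul]
    rw [h2]
    exact sum_le_sum fun a _ => wt_le p τ g h a
  exact_mod_cast h1

end Pool.Agent.W240.ML2
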